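import Pool.Agent.X119.WinTup

/-!
# Regular integers between consecutive cubes

For ALL large `n` a positive proportion of the integers `m` between `n ^ 3` and `(n + 1) ^ 3` is regular: every
interval around `m` whose length is between `K log ^ 2 (n ^ 3)` and `(n + 1) ^ 3 - n ^ 3` contains the right order of
integers with the property `Almost` (`m` and `m + 6` are almost primes), and up to `δ` these integers have a constant
density around `m` at all but `B (δ)` dyadic scales.
-/

set_option autoImplicit false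

namespace Pool.Agent.Results.MP_5628fe_nt.AlmostSexyWindows

open Finset Filter
open Pool.Agent.X119.Win (Order badScales)

/-- `m` and `m + 6` have at most `r` prime factors each (with multiplicity), all of them larger than
`X ^ (1 / r)`. -/
def Almost (r X m : ℕ) : Prop :=
  ∀ h ∈ ({0, 6} : Finset ℕ), (m + h).primeFactorsList.length ≤ r ∧
    ∀ p : ℕ, p.Prime → p ∣ m + h → (X : ℝ) ^ (1 / (r : ℝ)) < (p : ℝ)

/-- no local obstruction -/
lemma adm (p : ℕ) (hp : p.Prime) : ∃ m : ℕ, ∀ h ∈ ({0, 6} : Finset ℕ), ¬ p ∣ m + h := by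
  rcases lt_or_ge p 30 with h30 | h30
  · refine ⟨101, fun h hh hd => ?_⟩
    simp only [mem_insert, mem_singleton] at hh
    have := (Nat.prime_dvd_prime_iff_eq hp
      (by rcases hh with rfl | rfl <;> norm_num)).1 hd
    omega
  · refine ⟨5, fun h hh hd => ?_⟩
    simp only [mem_insert, mem_singleton] at hh
    have := Nat.le_of_dvd (by omega) hd
    omega

open Classical in
/-- **Regular integers between consecutive cubes.** -/
theorem result :
    ∃ (r : ℕ) (c₁ c₂ K κ : ℝ), 0 < c₁ ∧ 0 < c₂ ∧ 0 < K ∧ 0 < κ ∧ ∀ δ : ℝ, 0 < δ → ∃ B : ℕ,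
      ∀ᶠ n : ℕ in atTop,
        κ * (((n + 1) ^ 3 - n ^ 3 : ℕ) : ℝ) ≤ (((Finset.Ioc (n ^ 3) ((n + 1) ^ 3)).filter (fun m =>
          Order (Almost r (n ^ 3)) 2 c₁ c₂ K (n ^ 3) ((n + 1) ^ 3 - n ^ 3) m ∧
          badScales (Almost r (n ^ 3)) 2 c₁ c₂ δ (n ^ 3) ((n + 1) ^ 3 - n ^ 3) m ≤ B)).card : ℝ) :=
  Pool.Agent.X119.WinTup.pow_windows 3 (by norm_num) 2 Almost
    (Pool.Agent.X119.WinTup.tuple_windows {0, 6} ⟨0, by simp⟩ adm 2 rfl (1 / 2) (by norm_num) (by norm_num))

end Pool.Agent.Results.MP_5628fe_nt.AlmostSexyWindows
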