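import Mathlib
import Pool.Agent.X58.IV.ExactE

set_option autoImplicit false

/-!
# Pairs `q, q + 6` of almost primes, consecutive among the numbers without small prime factors, between cubes

There are `C`, `t` such that every interval `(A, B]` of length `≥ n ^ ε` between `n ^ 3` and `(n + 1) ^ 3`, `n`
large, contains the conjectured order of magnitude of numbers `q` for which `q` and `q + 6` are products of at most
`t` primes, all of them `> (n ^ 4) ^ (1 / t)`, and NO number strictly between them, nor any other number at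
distance `≤ L` of `q`, is free of prime factors `≤ C` (in particular none of them is a prime); and for any
colouring with `r` colours nearly all of these `q` are covered by disjoint monochromatic arithmetic progressions
of `s` terms with differences `≤ (log n) ^ c`.
-/

namespace Pool.Agent.Results.MP_5628fe_nt.ConsecutiveRoughPairs

open Finset Pool.Agent.X58.IV

/-- `v > 1` is a product of at most `t` primes, all of them `> z` -/
def AlmostPrime (t : ℕ) (z : ℝ) (v : ℕ) : Prop :=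
  1 < v ∧ v.primeFactorsList.length ≤ t ∧ ∀ p : ℕ, p.Prime → p ∣ v → z < p

/-- `v` is not prime and has a prime factor `≤ C` -/
def Smooth (C v : ℕ) : Prop := ¬ v.Prime ∧ ∃ p : ℕ, p.Prime ∧ p ≤ C ∧ p ∣ v

open Classical in
/-- the `q` of `(A, B]` for which `q` and `q + 6` are products of at most `t` primes, all `> (n ^ 4) ^ (1 / t)`,
and all other `v` with `|v - q| ≤ L` are not prime and divisible by a prime `≤ C` -/
noncomputable def Pairs (L C t n A B : ℕ) : Finset ℕ :=
  (Ioc A B).filter (fun q => AlmostPrime t (((n ^ 4 : ℕ) : ℝ) ^ (1 / (t : ℝ))) q ∧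
    AlmostPrime t (((n ^ 4 : ℕ) : ℝ) ^ (1 / (t : ℝ))) (q + 6) ∧
    ∀ v : ℕ, v ≠ q → v ≠ q + 6 → q ≤ v + L → v ≤ q + L → Smooth C v)

/-- the terms `a, a + b, ..., a + (s - 1) b` of the progression `z = (a, b)` -/
def Progression (s : ℕ) (z : ℕ × ℕ) : Finset ℕ := (range s).image (fun i => z.1 + i * z.2)

lemma pairs_eq (L C t n A B : ℕ) (hA : C + L < A) :
    Isolated {0, 6} L C t (n ^ 4) A B = Pairs L C t n A B := by
  classical
  unfold Isolated Pairs
  apply filter_congr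
  intro q hq
  have hqA := (mem_Ioc.1 hq).1
  constructor
  · rintro ⟨h1, h2⟩
    refine ⟨h1 0 (by simp), h1 6 (by simp), fun v hv1 hv2 hv3 hv4 => ?_⟩
    obtain ⟨p, hp, hpC, hd⟩ := h2 ((v : ℤ) - q) (by omega) (by omega) (by
      intro h hh
      simp only [mem_insert, mem_singleton] at hh
      rcases hh with rfl | rfl
      · push_cast; omega
      · push_cast; omega)
    have e : (q : ℤ) + ((v : ℤ) - q) = (v : ℤ) := by ring
    rw [e] at hd
    have hd' : p ∣ v := by exact_mod_cast hd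
    refine ⟨fun hv => ?_, p, hp, hpC, hd'⟩
    have := (Nat.prime_dvd_prime_iff_eq hp hv).1 hd'
    omega
  · rintro ⟨h1, h2, h3⟩
    refine ⟨?_, fun j hj1 hj2 hj3 => ?_⟩
    · intro h hh
      simp only [mem_insert, mem_singleton] at hh
      rcases hh with rfl | rfl
      · exact h1
      · exact h2
    · have hj0 : j ≠ 0 := by simpa using hj3 0 (by simp)
      have hj6 : j ≠ 6 := by simpa using hj3 6 (by simp)
      have hv : ((((q : ℤ) + j).toNat : ℕ) : ℤ) = (q : ℤ) + j := Int.toNat_of_nonneg (by omega)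
      obtain ⟨_, p, hp, hpC, hd⟩ := h3 ((q : ℤ) + j).toNat (by omega) (by omega) (by omega) (by omega)
      refine ⟨p, hp, hpC, ?_⟩
      rw [← hv]
      exact_mod_cast hd

lemma adm : AdmS {0, 6} := by
  intro p hp
  by_cases h7 : p = 7
  · exact ⟨2, by subst h7; decide⟩
  · refine ⟨1, fun hd => h7 ?_⟩
    have e : ∏ a ∈ ({0, 6} : Finset ℕ), (1 + a) = 7 := by decide
    rw [e] at hd
    exact (Nat.prime_dvd_prime_iff_eq hp (by norm_num)).1 hd

theorem result (L : ℕ) (_hL : 6 ≤ L) (ε : ℝ) (hε : 0 < ε) :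
    ∃ C t : ℕ, 1 ≤ t ∧ ∃ κ K : ℝ, 0 < κ ∧ 0 < K ∧ ∀ (s r : ℕ) (δ : ℝ), 1 ≤ s → 0 < δ → ∃ c n₀ : ℕ,
      ∀ n : ℕ, n₀ ≤ n → ∀ A B : ℕ, n ^ 3 ≤ A → B + 6 < (n + 1) ^ 3 → (n : ℝ) ^ ε ≤ (B : ℝ) - A →
        κ * ((B : ℝ) - A) / Real.log n ^ 2 ≤ ((Pairs L C t n A B).card : ℝ) ∧
        ((Pairs L C t n A B).card : ℝ) ≤ K * ((B : ℝ) - A) / Real.log n ^ 2 ∧
        ∀ χ : ℕ → Fin r, ∃ P : Finset (ℕ × ℕ),
          (∀ z ∈ P, 1 ≤ z.2 ∧ (z.2 : ℝ) ≤ Real.log n ^ c ∧
            ∀ l < s, z.1 + l * z.2 ∈ Pairs L C t n A B ∧ χ (z.1 + l * z.2) = χ z.1) ∧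
          (P : Set (ℕ × ℕ)).PairwiseDisjoint (Progression s) ∧
          (((Pairs L C t n A B \ P.biUnion (Progression s)).card : ℕ) : ℝ) ≤
            δ * ((B : ℝ) - A) / Real.log n ^ 2 := by
  classical
  obtain ⟨C, t, ht, κ, K, hκ, hK, h⟩ := isolatedE {0, 6} (by simp) adm L 4 (by norm_num) ε hε
  refine ⟨C, t, ht, κ, K, hκ, hK, fun s r δ hs hδ => ?_⟩
  obtain ⟨c, N₀, h2⟩ := h s r δ hs hδ
  refine ⟨c, max N₀ (max 8 (C + L + 1)), fun n hn A B hA hB hAB => ?_⟩
  have hn8 : 8 ≤ n := ((le_max_left _ _).trans (le_max_right _ _)).trans hn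
  have hnC : C + L + 1 ≤ n := ((le_max_right _ _).trans (le_max_right _ _)).trans hn
  have hn3 : n ≤ n ^ 3 := Nat.le_self_pow (by norm_num) n
  have h3 := h2 n ((le_max_left _ _).trans hn) A B (by
    have e1 : (n + 1) ^ 3 = n ^ 3 + 3 * n ^ 2 + 3 * n + 1 := by ring
    have e2 : 8 * n ^ 3 ≤ n ^ 4 := by
      calc 8 * n ^ 3 ≤ n * n ^ 3 := Nat.mul_le_mul_right _ hn8
        _ = n ^ 4 := by ring
    have e3 : n ^ 2 ≤ n ^ 3 := Nat.pow_le_pow_right (by omega) (by norm_num)
    omega) hAB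
  have hcard : ({0, 6} : Finset ℕ).card = 2 := by decide
  rw [hcard, pairs_eq L C t n A B (by omega)] at h3
  exact h3

end Pool.Agent.Results.MP_5628fe_nt.ConsecutiveRoughPairs
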