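import Mathlib
import Pool.Agent.X34.E.E20
import Pool.Agent.X34.E.E4

/-!
# Pairs of consecutive primes with one of the gaps 6, 12, ..., 438 between consecutive cubes

The conjecture asks for many pairs of consecutive primes `p, p + 6` between any two consecutive cubes. Here the
gap 6 is replaced by one of its first 73 multiples, all `n` are replaced by a positive proportion, and there are
at least `c n ^ 2 / (log n) ^ 45` pairs. The bound 73 comes from 45 integers in `[0, 73]` which miss a residue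
class modulo every prime except 2 and 3.
-/

set_option autoImplicit false

open Finset Filter

namespace Pool.Agent.Results.MP_5628fe_nt.ProportionOfCubes

/-- the number of the pairs of consecutive primes `p, p + h` with `n ^ 3 < p < p + h < (n + 1) ^ 3` and
`p ≡ a (mod 6)` -/
noncomputable def pairs (a h n : ℕ) : ℕ :=
  Set.ncard {p : ℕ | n ^ 3 < p ∧ p + h < (n + 1) ^ 3 ∧ p ≡ a [MOD 6] ∧ p.Prime ∧ (p + h).Prime ∧
    ∀ m, p < m → m < p + h → ¬ m.Prime}

/-- the number of the integers `N ≤ n < 2 N` with at least `c n ^ 2 / (log n) ^ 45` pairs -/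
noncomputable def good (c : ℝ) (a h N : ℕ) : ℕ :=
  Set.ncard {n : ℕ | N ≤ n ∧ n < 2 * N ∧ c * (n : ℝ) ^ 2 / Real.log n ^ 45 ≤ (pairs a h n : ℝ)}

/-- 45 integers -/
def G : Finset ℕ := {0, 1, 2, 3, 5, 7, 8, 11, 12, 15, 16, 17, 18, 21, 22, 25, 26, 28, 30, 32, 33, 35, 37, 38, 40,
  43, 45, 46, 47, 50, 51, 52, 56, 57, 58, 60, 63, 65, 66, 67, 68, 70, 71, 72, 73}

theorem G_card : G.card = 45 := by decide

theorem G_le : ∀ g ∈ G, g ≤ 73 := by decide

theorem G_small : ∀ p ∈ ({5, 7, 11, 13, 17, 19, 23, 29, 31, 37, 41, 43} : Finset ℕ),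
    ∃ r ∈ range p, ∀ g ∈ G, (r + g) % p ≠ 0 := by decide +kernel

theorem G_adm (p : ℕ) (hp : p.Prime) (h6 : ¬ p ∣ 6) : ∃ r : ℕ, ∀ g ∈ G, ¬ p ∣ r + g := by
  by_cases h45 : p < 45
  · have hmem : p ∈ ({5, 7, 11, 13, 17, 19, 23, 29, 31, 37, 41, 43} : Finset ℕ) := by
      interval_cases p <;> first | (exfalso; revert hp; norm_num; done) | (exfalso; revert h6; norm_num; done) | decide
    obtain ⟨r, -, hr⟩ := G_small p hmem
    exact ⟨r, fun g hg hd => hr g hg (Nat.mod_eq_zero_of_dvd hd)⟩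
  · by_contra hcon
    push Not at hcon
    have h1 : (range p).card ≤ G.card := by
      refine card_le_card_of_surjOn (fun g => (p - g % p) % p) ?_
      intro r hr
      rw [mem_coe, mem_range] at hr
      obtain ⟨g, hg, hd⟩ := hcon r
      refine ⟨g, hg, ?_⟩
      have hp0 : 0 < p := hp.pos
      have h2 : (r + g % p) % p = 0 := by
        rw [Nat.add_mod_mod]
        exact Nat.mod_eq_zero_of_dvd hd
      have h3 : g % p < p := Nat.mod_lt _ hp0
      obtain ⟨k, hk⟩ := Nat.dvd_of_mod_eq_zero h2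
      have hk2 : k < 2 := by
        by_contra hk2
        have : p * 2 ≤ p * k := Nat.mul_le_mul_left _ (by omega)
        omega
      show (p - g % p) % p = r
      interval_cases k
      · have : g % p = 0 := by omega
        rw [this, Nat.sub_zero, Nat.mod_self]
        omega
      · have : p - g % p = r := by omega
        rw [this]
        exact Nat.mod_eq_of_lt hr
    rw [card_range, G_card] at h1
    have h2 : p = 45 := by omega
    rw [h2] at hp
    exact absurd hp (by norm_num)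

/-- For `a` prime to 6 there is `c > 0` such that for all large `N` there is `1 ≤ k ≤ 73` such that for at least
`c N` of the integers `N ≤ n < 2 N` there are at least `c n ^ 2 / (log n) ^ 45` pairs of consecutive primes
`p`, `p + 6 k` with `p ≡ a (mod 6)` between `n ^ 3` and `(n + 1) ^ 3`. One `k` has this property for arbitrarily
large `N`. -/
theorem result (a : ℕ) (ha : a.Coprime 6) :
    ∃ c : ℝ, 0 < c ∧
      (∀ᶠ N : ℕ in atTop, ∃ k : ℕ, 1 ≤ k ∧ k ≤ 73 ∧ c * N ≤ (good c a (6 * k) N : ℝ)) ∧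
      ∃ k : ℕ, 1 ≤ k ∧ k ≤ 73 ∧ ∃ᶠ N : ℕ in atTop, c * N ≤ (good c a (6 * k) N : ℝ) := by
  obtain ⟨c, hc, h⟩ := Pool.Agent.X34.E.powers_pos Pool.Agent.X34.E.dhl45R 3 (by norm_num) 6 a (by norm_num) ha
    G G_card G_adm
  have hall : ∀ᶠ N : ℕ in atTop, ∃ k : ℕ, 1 ≤ k ∧ k ≤ 73 ∧ c * N ≤ (good c a (6 * k) N : ℝ) := by
    filter_upwards [h] with N hN
    obtain ⟨g, hg, g', hg', hgg, hN⟩ := hN
    have h106 := G_le g' hg'
    refine ⟨g' - g, by omega, by omega, hN.trans ?_⟩
    unfold good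
    rw [Nat.cast_le]
    refine Set.ncard_le_ncard (fun n hn => ⟨hn.1, hn.2.1, hn.2.2.trans ?_⟩)
      ((Set.finite_Iio (2 * N)).subset fun n hn => hn.2.1)
    unfold pairs
    rw [Nat.cast_le, mul_comm 6 (g' - g)]
    refine Set.ncard_le_ncard (fun p hp => ⟨hp.1, hp.2.1, hp.2.2.1, hp.2.2.2⟩)
      ((Set.finite_Iio ((n + 1) ^ 3)).subset fun p hp => ?_)
    have := hp.2.1
    show p < (n + 1) ^ 3
    omega
  refine ⟨c, hc, hall, ?_⟩
  by_contra hcon
  push Not at hcon
  have h2 : ∀ k ∈ Icc 1 73, ∀ᶠ N : ℕ in atTop, ¬ c * N ≤ (good c a (6 * k) N : ℝ) := by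
    intro k hk
    rw [mem_Icc] at hk
    have h3 := hcon k hk.1 hk.2
    filter_upwards [h3] with N hN
    exact not_le.2 hN
  have h3 := (Filter.eventually_all_finset _).2 h2
  obtain ⟨N, hN1, hN2⟩ := (hall.and h3).exists
  obtain ⟨k, hk1, hk2, hk3⟩ := hN1
  exact hN2 k (mem_Icc.2 ⟨hk1, hk2⟩) hk3

end Pool.Agent.Results.MP_5628fe_nt.ProportionOfCubes
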